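import Mathlib

namespace Pool.Agent.H.MP_b108d3_an

open Filter Topology Set Metric

variable {X : Type*} [NormedAddCommGroup X] [NormedSpace ℂ X]

def NN (T : X →L[ℂ] X) (U V : Set X) : Set ℕ := {n | ∃ x ∈ U, (T ^ n) x ∈ V}

theorem four {T : X →L[ℂ] X} (c : ℂ) (k : ℕ) (U1 U2 V1 V2 : Set X) :
    NN T (U1 ∩ (c • T ^ k) ⁻¹' U2) (V1 ∩ (c • T ^ k) ⁻¹' V2) ⊆ NN T U1 V1 ∩ NN T U2 V2 :=
  fun n ⟨x, a, b⟩ => ⟨⟨x, a.1, b.1⟩, _, a.2, by
    have : (T ^ n) ((c • T ^ k) x) = (c • T ^ k) ((T ^ n) x) := by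
      rw [ContinuousLinearMap.smul_apply, ContinuousLinearMap.smul_apply, map_smul,
        ← mul_apply_eq_comp, ← mul_apply_eq_comp, ← pow_add, ← pow_add, add_comm]
    rw [this]; exact b.2⟩

theorem tr [Nontrivial X] {T : X →L[ℂ] X} {x0 : X} (hx : DenseRange fun n => (T ^ n) x0)
    {U V : Set X} (hU : IsOpen U) (hV : IsOpen V) (a : U.Nonempty) (b : V.Nonempty) :
    (NN T U V).Nonempty := by
  have := Module.punctured_nhds_neBot ℂ X
  obtain ⟨m, hm⟩ := hx.exists_mem_open hU a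
  obtain ⟨_, ⟨⟨n, rfl⟩, c⟩, d⟩ := (Dense.sdiff_finite hx ((finite_Iio m).image fun n =>
    (T ^ n) x0)).exists_mem_open hV b
  obtain ⟨k, rfl⟩ := Nat.exists_eq_add_of_le' (not_lt.1 fun h : n < m => c ⟨n, h, rfl⟩)
  exact ⟨k, _, hm, by rwa [← mul_apply_eq_comp, ← pow_add]⟩

theorem wm [Nontrivial X] {T : X →L[ℂ] X} {x0 : X} (hx : DenseRange fun n => (T ^ n) x0)
    (hb : Dense {x | ∃ M, ∀ n, ‖(T ^ n) x‖ ≤ M}) {U1 U2 V1 V2 : Set X} (a1 : IsOpen U1)
    (a2 : IsOpen U2) (a3 : IsOpen V1) (a4 : IsOpen V2) (b1 : U1.Nonempty) (b2 : U2.Nonempty)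
    (b3 : V1.Nonempty) (b4 : V2.Nonempty) : (NN T U1 V1 ∩ NN T U2 V2).Nonempty := by
  obtain ⟨u1, b1⟩ := b1
  obtain ⟨u2, b2⟩ := b2
  obtain ⟨v1, b3⟩ := b3
  obtain ⟨v2, b4⟩ := b4
  obtain ⟨r, r0, c1, c2, c3, c4⟩ : ∃ r > 0, ball u1 (r + r) ⊆ U1 ∧ ball u2 (r + r) ⊆ U2 ∧
      ball v1 (r + r) ⊆ V1 ∧ ball v2 (r + r) ⊆ V2 := by
    have e : ∀ {u : X} {U}, IsOpen U → u ∈ U → ∀ᶠ r in 𝓝[>] (0:ℝ), ball u r ⊆ U := fun a b =>
      eventually_ball_subset (a.mem_nhds b) |>.filter_mono nhdsWithin_le_nhds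
    obtain ⟨r, h⟩ := ((e a1 b1).and ((e a2 b2).and ((e a3 b3).and ((e a4 b4).and
      self_mem_nhdsWithin)))).exists
    exact ⟨r / 2, half_pos h.2.2.2.2, by rw [add_halves]; exact ⟨h.1, h.2.1, h.2.2.1, h.2.2.2.1⟩⟩
  have key : ∀ {u v : X} {n}, n ∈ NN T (ball u r) (ball 0 r) → n ∈ NN T (ball 0 r) (ball v r) →
      n ∈ NN T (ball u (r + r)) (ball v (r + r)) := fun {u v n} ⟨x, a, b⟩ ⟨y, c, d⟩ =>
    ⟨x + y, by simpa using (dist_add_add_le x y u 0).trans_lt (add_lt_add a c),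
      by simpa using (dist_add_add_le _ _ 0 v).trans_lt (add_lt_add b d)⟩
  obtain ⟨k, x, d1, d2⟩ := tr hx isOpen_ball isOpen_ball (nonempty_ball.2 r0 : (ball u1 r).Nonempty)
    (nonempty_ball.2 r0 : (ball u2 r).Nonempty)
  obtain ⟨l, y, d3, d4⟩ := tr hx isOpen_ball isOpen_ball (nonempty_ball.2 r0 : (ball v1 r).Nonempty)
    (nonempty_ball.2 r0 : (ball v2 r).Nonempty)
  have op : ∀ (c : ℂ) (k : ℕ) {U V : Set X}, IsOpen U → IsOpen V → IsOpen (U ∩ (c • T ^ k) ⁻¹' V) :=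
    fun c k _ _ a b => a.inter (b.preimage (c • T ^ k).continuous)
  have z0 : ∀ k : ℕ, (0:X) ∈ ball 0 r ∩ ((1:ℂ) • T ^ k) ⁻¹' ball 0 r := fun k => by simpa using r0
  obtain ⟨ρ, ρ0, hρ⟩ := Metric.isOpen_iff.1 ((op 1 k isOpen_ball isOpen_ball).inter
    (op 1 l isOpen_ball isOpen_ball)) 0 ⟨z0 k, z0 l⟩
  obtain ⟨w, ⟨M, hM⟩, hw⟩ := hb.exists_mem_open (op 1 k isOpen_ball isOpen_ball)
    ⟨x, d1, by simpa using d2⟩
  have M0 : 0 ≤ M := (norm_nonneg _).trans (hM 0)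
  obtain ⟨ε, hε⟩ : ∃ ε : ℝ, ε = ρ / (M + 1) := ⟨_, rfl⟩
  have ε0 : 0 < ε := by rw [hε]; positivity
  obtain ⟨j, z, e1, e2⟩ := tr hx isOpen_ball (op 1 l isOpen_ball isOpen_ball)
    (nonempty_ball.2 (mul_pos ε0 ρ0) : (ball (0:X) _).Nonempty) ⟨y, d3, by simpa using d4⟩
  obtain ⟨n, hn⟩ := tr hx (op ε j (op 1 k isOpen_ball isOpen_ball) (op 1 l isOpen_ball isOpen_ball))
    (op ε j (op 1 k isOpen_ball isOpen_ball) (op 1 l isOpen_ball isOpen_ball))
    ⟨w, hw, (hρ (show _ ∈ _ by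
      rw [mem_ball_zero_iff, ContinuousLinearMap.smul_apply, norm_smul, Complex.norm_real,
        Real.norm_of_nonneg ε0.le, hε, div_mul_eq_mul_div, div_lt_iff₀ (by positivity)]
      nlinarith [hM j])).2⟩
    ⟨(ε:ℂ)⁻¹ • z, (hρ (show _ ∈ _ by
      rw [mem_ball_zero_iff, norm_smul, norm_inv, Complex.norm_real,
        Real.norm_of_nonneg ε0.le, inv_mul_lt_iff₀ ε0]
      exact mem_ball_zero_iff.1 e1)).1, by
      rw [mem_preimage, ContinuousLinearMap.smul_apply, map_smul, smul_smul,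
        mul_inv_cancel₀ (by exact_mod_cast ε0.ne'), one_smul ℂ ((T ^ j) z)]
      exact e2⟩
  obtain ⟨f1, f2⟩ := four _ _ _ _ _ _ hn
  obtain ⟨g1, g2⟩ := four _ _ _ _ _ _ f1
  obtain ⟨g3, g4⟩ := four _ _ _ _ _ _ f2
  obtain ⟨p, p1, p2⟩ := key g1 g3
  obtain ⟨q, q1, q2⟩ := key g2 g4
  exact ⟨n, ⟨p, c1 p1, c3 p2⟩, q, c2 q1, c4 q2⟩

theorem multi [Nontrivial X] {T : X →L[ℂ] X} {x0 : X} (hx : DenseRange fun n => (T ^ n) x0)
    (hb : Dense {x | ∃ M, ∀ n, ‖(T ^ n) x‖ ≤ M}) (u v : ℕ → X) {ε : ℝ} (hε : 0 < ε) (m : ℕ) :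
    ∃ n, ∃ w : ℕ → X, ∀ k, k ≤ m → ‖w k - u k‖ < ε ∧ ‖(T ^ n) (w k) - v k‖ < ε := by
  have : ∃ U V : Set X, IsOpen U ∧ IsOpen V ∧ U.Nonempty ∧ V.Nonempty ∧
      ∀ k, k < m + 1 → NN T U V ⊆ NN T (ball (u k) ε) (ball (v k) ε) := by
    induction m + 1 with
    | zero => exact ⟨univ, univ, isOpen_univ, isOpen_univ, ⟨0, trivial⟩, ⟨0, trivial⟩, by simp⟩
    | succ m ih =>
      obtain ⟨U, V, a, b, c, d, h⟩ := ih
      obtain ⟨k, ⟨x, e1, e2⟩, y, e3, e4⟩ := wm hx hb a b isOpen_ball isOpen_ball c d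
        (nonempty_ball.2 hε : (ball (u m) ε).Nonempty) (nonempty_ball.2 hε : (ball (v m) ε).Nonempty)
      refine ⟨_, _, a.inter (isOpen_ball.preimage ((1:ℂ) • T ^ k).continuous),
        b.inter (isOpen_ball.preimage ((1:ℂ) • T ^ k).continuous), ⟨x, e1, by simpa using e2⟩,
        ⟨y, e3, by simpa using e4⟩, fun i hi n hn => ?_⟩
      rcases Nat.lt_succ_iff_lt_or_eq.1 hi with h' | rfl
      exacts [h i h' (four _ _ _ _ _ _ hn).1, (four _ _ _ _ _ _ hn).2]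
  obtain ⟨U, V, a, b, c, d, h⟩ := this
  obtain ⟨n, hn⟩ := tr hx a b c d
  choose! w h1 h2 using fun k hk => h k hk hn
  exact ⟨n, w, fun k hk => ⟨mem_ball_iff_norm.1 (h1 k (by omega)), mem_ball_iff_norm.1 (h2 k (by omega))⟩⟩

theorem build [Nontrivial X] [CompleteSpace X] {T : X →L[ℂ] X} {x0 : X}
    (hx : DenseRange fun n => (T ^ n) x0) (hb : Dense {x | ∃ M, ∀ n, ‖(T ^ n) x‖ ≤ M})
    (e : ℕ → X) (t : ℕ → ℕ → X) : ∃ (f : ℕ → X) (n : ℕ → ℕ),
      (∀ k, ‖f k - e k‖ ≤ 1 / 4 * (1 / 2) ^ k) ∧ ∀ l k, ‖(T ^ n l) (f k) -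
        if k ≤ l then t l k else (T ^ n l) (e k)‖ ≤ 1 / 4 * (1 / 2) ^ l * (1 / 2) ^ k := by
  have step : ∀ (l : ℕ) (s : ℕ × (ℕ → X)), ∃ s' : ℕ × (ℕ → X), s.1 ≤ s'.1 ∧
      (∀ k, l < k → s'.2 k = s.2 k) ∧ (∀ i ≤ s.1, ∀ k, ‖(T ^ i) (s'.2 k - s.2 k)‖ ≤ 1 / 8 * (1 / 4) ^ l) ∧
      ∃ n ≤ s'.1, ∀ k ≤ l, ‖(T ^ n) (s'.2 k) - t l k‖ ≤ 1 / 8 * (1 / 4) ^ l := fun l s => by
    obtain ⟨n, w, h⟩ := multi hx hb s.2 (t l) (ε := 1 / 8 * (1 / 4) ^ l / (1 + ‖T‖) ^ s.1)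
      (by positivity) l
    have a : 1 ≤ 1 + ‖T‖ := le_add_of_nonneg_right (norm_nonneg _)
    refine ⟨(max s.1 n, fun k => if k ≤ l then w k else s.2 k), le_max_left _ _,
      fun k hk => if_neg (not_le.2 hk), fun i hi k => ?_, n, le_max_right _ _, fun k hk => ?_⟩
    · dsimp only
      split_ifs with hk
      · have : ‖T ^ i‖ ≤ (1 + ‖T‖) ^ s.1 := ((norm_pow_le T i).trans (pow_le_pow_left₀
          (norm_nonneg _) (by linarith) i)).trans (pow_le_pow_right₀ a hi)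
        refine ((T ^ i).le_opNorm _).trans ((mul_le_mul this (h k hk).1.le (norm_nonneg _)
          (by positivity)).trans (le_of_eq ?_))
        field_simp
      · simp
    · dsimp only
      rw [if_pos hk]
      exact (h k hk).2.le.trans (div_le_self (by positivity) (one_le_pow₀ a))
  choose g g1 g2 g3 g4 g5 g6 using step
  obtain ⟨s, s0, s1⟩ : ∃ s : ℕ → ℕ × (ℕ → X), s 0 = (0, e) ∧ ∀ l, s (l + 1) = g l (s l) :=
    ⟨fun l => Nat.rec (0, e) g l, rfl, fun _ => rfl⟩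
  have m1 : Monotone fun l => (s l).1 := monotone_nat_of_le_succ fun l => s1 l ▸ g1 l _
  have c1 : ∀ k l, l ≤ k → (s l).2 k = e k := fun k l h => by
    induction l with
    | zero => rw [s0]
    | succ l ih => rw [s1, g2 l _ k h, ih (by omega)]
  have d : ∀ i k l j, i ≤ (s l).1 → dist ((T ^ i) ((s (l + j)).2 k)) ((T ^ i) ((s (l + (j + 1))).2 k))
      ≤ 1 / 8 * (1 / 4) ^ l * (1 / 4) ^ j := fun i k l j h => by
    rw [dist_comm, dist_eq_norm, ← map_sub, ← add_assoc, s1, mul_assoc, ← pow_add]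
    exact g3 _ _ i (h.trans (m1 (Nat.le_add_right _ _))) k
  choose f hf using fun k => cauchySeq_tendsto_of_complete (cauchySeq_of_le_geometric (1 / 4) _
    (by norm_num) (f := fun j => (s j).2 k) fun j => by simpa using d 0 k 0 j (Nat.zero_le _))
  have c2 : ∀ i k l, i ≤ (s l).1 → ‖(T ^ i) (f k) - (T ^ i) ((s l).2 k)‖ ≤ 1 / 6 * (1 / 4) ^ l :=
    fun i k l h => by
      rw [← dist_eq_norm, dist_comm]
      refine (dist_le_of_le_geometric_of_tendsto₀ (1 / 4) _ (by norm_num) (d i k l · h)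
        (((T ^ i).continuous.tendsto _).comp ((hf k).comp (tendsto_atTop_mono (fun j => Nat.le_add_left j l) tendsto_id)))).trans
        (le_of_eq (by ring))
  have q : ∀ l : ℕ, (1 / 4 : ℝ) ^ l = (1 / 2) ^ l * (1 / 2) ^ l := fun l => by
    rw [← mul_pow]; norm_num
  have q1 : ∀ {k l : ℕ}, k ≤ l → (1 / 2 : ℝ) ^ l ≤ (1 / 2) ^ k := fun h =>
    pow_le_pow_of_le_one (by norm_num) (by norm_num) h
  refine ⟨f, fun l => g4 l (s l), fun k => ?_, fun l k => ?_⟩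
  · have := c2 0 k k (Nat.zero_le _)
    rw [c1 k k le_rfl, q] at this
    refine le_trans this ?_
    have := q1 (Nat.zero_le k)
    nlinarith [pow_pos (show (0:ℝ) < 1 / 2 by norm_num) k]
  have p1 := pow_pos (show (0:ℝ) < 1 / 2 by norm_num) k
  have p2 := pow_pos (show (0:ℝ) < 1 / 2 by norm_num) l
  split_ifs with h
  · have a := c2 _ k (l + 1) (s1 l ▸ g5 l (s l))
    have b := g6 l (s l) k h
    rw [s1, pow_succ, q] at a
    rw [q] at b
    have := norm_sub_le_norm_sub_add_norm_sub ((T ^ g4 l (s l)) (f k))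
      ((T ^ g4 l (s l)) ((g l (s l)).2 k)) (t l k)
    nlinarith [q1 h]
  · have a := c2 _ k k ((s1 l ▸ g5 l (s l) : _ ≤ (s (l + 1)).1).trans (m1 (not_le.1 h)))
    rw [c1 k k le_rfl, q] at a
    nlinarith [q1 (not_le.1 h).le]

theorem hsub [Nontrivial X] [CompleteSpace X] {T : X →L[ℂ] X} {x0 : X}
    (hx : DenseRange fun n => (T ^ n) x0) (hb : Dense {x | ∃ M, ∀ n, ‖(T ^ n) x‖ ≤ M})
    (e : ℕ → X) (h1 : ∀ (a : ℕ →₀ ℂ) k, ‖a k‖ ≤ ‖Finsupp.linearCombination ℂ e a‖)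
    (h2 : ∀ n (a : ℕ →₀ ℂ) M, (∀ k, ‖a k‖ ≤ M) → ‖(T ^ n) (Finsupp.linearCombination ℂ e a)‖ ≤ 2 * M) :
    ∃ M : Submodule ℂ X, IsClosed (M : Set X) ∧ ¬ FiniteDimensional ℂ M ∧
      ∀ x ∈ M, x ≠ 0 → DenseRange fun n => (T ^ n) x := by
  classical
  obtain ⟨f, n, a1, a2⟩ := build hx hb e fun l k =>
    if k = l.unpair.1 then (T ^ l.unpair.2.unpair.1) x0 else 0
  have sm : ∀ (g : ℕ → X) (c : ℝ), 0 ≤ c → (∀ k, ‖g k‖ ≤ c * (1 / 2) ^ k) → ∀ (a : ℕ →₀ ℂ) M,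
      (∀ k, ‖a k‖ ≤ M) → ‖Finsupp.linearCombination ℂ g a‖ ≤ 2 * c * M := fun g c c0 hg a M hM => by
    have M0 := (norm_nonneg _).trans (hM 0)
    rw [Finsupp.linearCombination_apply, Finsupp.sum]
    refine (norm_sum_le _ _).trans ((Finset.sum_le_sum (g := fun k => c * M * (1 / 2) ^ k)
      fun k _ => ?_).trans ?_)
    · rw [norm_smul, mul_comm c, mul_assoc]
      exact mul_le_mul (hM k) (hg k) (norm_nonneg _) M0
    · rw [← Finset.mul_sum]
      have := summable_geometric_two.sum_le_tsum a.support fun _ _ => by positivity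
      rw [tsum_geometric_two] at this
      nlinarith [mul_nonneg c0 M0]
  have b1 : ∀ (a : ℕ →₀ ℂ) k, ‖a k‖ ≤ 2 * ‖Finsupp.linearCombination ℂ f a‖ := fun a k => by
    obtain ⟨j, hj⟩ : ∃ j, ∀ k, ‖a k‖ ≤ ‖a j‖ := by
      obtain ⟨j, -, h⟩ := (insert 0 a.support).exists_max_image (fun k => ‖a k‖) ⟨0, by simp⟩
      refine ⟨j, fun k => ?_⟩
      by_cases c : k ∈ a.support
      · exact h k (Finset.mem_insert_of_mem c)
      · simp [Finsupp.notMem_support_iff.1 c]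
    have d1 := sm (fun k => f k - e k) _ (by norm_num) a1 a _ hj
    have d2 : Finsupp.linearCombination ℂ (fun k => f k - e k) a =
        Finsupp.linearCombination ℂ f a - Finsupp.linearCombination ℂ e a := by
      simp [Finsupp.linearCombination_apply, Finsupp.sum, smul_sub]
    rw [d2, norm_sub_rev] at d1
    linarith [h1 a j, hj k, norm_sub_norm_le (Finsupp.linearCombination ℂ e a)
      (Finsupp.linearCombination ℂ f a)]
  have b2 : ∀ l, l.unpair.1 ≤ l → ∀ (a : ℕ →₀ ℂ), (T ^ n l) (Finsupp.linearCombination ℂ f a) -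
      a l.unpair.1 • (T ^ l.unpair.2.unpair.1) x0 - (T ^ n l) (Finsupp.linearCombination ℂ e
        (a.filter fun k => ¬ k ≤ l)) = Finsupp.linearCombination ℂ (fun k => (T ^ n l) (f k) -
        if k ≤ l then (if k = l.unpair.1 then (T ^ l.unpair.2.unpair.1) x0 else 0)
          else (T ^ n l) (e k)) a := fun l hl a => by
    induction a using Finsupp.induction_linear with
    | zero => simp [Finsupp.filter_zero]
    | add a b ha hb =>
      rw [map_add, map_add, map_add, ← ha, ← hb, Finsupp.filter_add, map_add, map_add,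
        Finsupp.add_apply, add_smul]
      abel
    | single k c =>
      by_cases d : k ≤ l
      · rw [Finsupp.filter_single_of_neg (fun k => ¬ k ≤ l) (not_not.2 d)]
        by_cases d' : k = l.unpair.1
        · subst d'; simp [hl, smul_sub]
        · simp [d, d', Finsupp.single_eq_of_ne (Ne.symm d')]
      · rw [Finsupp.filter_single_of_pos (fun k => ¬ k ≤ l) d]
        have : l.unpair.1 ≠ k := fun c => d (c ▸ hl)
        simp [d, Finsupp.single_eq_of_ne this, smul_sub]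
  have b3 : ∀ l, ∀ w ∈ (LinearMap.range (Finsupp.linearCombination ℂ f)).topologicalClosure,
      ‖(T ^ n l) w‖ ≤ (5 + 2 * ‖(T ^ l.unpair.2.unpair.1) x0‖) * ‖w‖ := fun l w hw => by
    refine closure_minimal (s := (LinearMap.range (Finsupp.linearCombination ℂ f) : Set X))
      (t := {w | ‖(T ^ n l) w‖ ≤ (5 + 2 * ‖(T ^ l.unpair.2.unpair.1) x0‖) * ‖w‖}) ?_
      (isClosed_le (by fun_prop) (by fun_prop)) hw
    rintro _ ⟨a, rfl⟩
    have d1 := sm _ _ (by positivity) (a2 l) a _ (b1 a)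
    rw [← b2 l (Nat.unpair_left_le l)] at d1
    have d2 := h2 (n l) (a.filter fun k => ¬ k ≤ l) (2 * ‖Finsupp.linearCombination ℂ f a‖)
      fun k => by rw [Finsupp.filter_apply]; split_ifs <;> simp [b1 a k]
    have d3 := mul_le_mul_of_nonneg_right (b1 a l.unpair.1)
      (norm_nonneg ((T ^ l.unpair.2.unpair.1) x0))
    rw [← norm_smul] at d3
    have d4 := norm_sub_norm_le ((T ^ n l) (Finsupp.linearCombination ℂ f a))
      (a l.unpair.1 • (T ^ l.unpair.2.unpair.1) x0)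
    have d5 := (norm_sub_norm_le _ _).trans d1
    have d6 : (1 / 2 : ℝ) ^ l ≤ 1 := pow_le_one₀ (by norm_num) (by norm_num)
    rw [mem_ofPred_eq]
    nlinarith [norm_nonneg (Finsupp.linearCombination ℂ f a)]
  refine ⟨(LinearMap.range (Finsupp.linearCombination ℂ f)).topologicalClosure,
    Submodule.isClosed_topologicalClosure _, fun h => ?_, fun x hx1 hx0 => ?_⟩
  · have := Submodule.finiteDimensional_of_le (Submodule.le_topologicalClosure
      (LinearMap.range (Finsupp.linearCombination ℂ f)))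
    have i : Function.Injective (Finsupp.linearCombination ℂ f) :=
      (injective_iff_map_eq_zero _).2 fun a h => Finsupp.ext fun k => by simpa [h] using b1 a k
    have := (LinearEquiv.ofInjective _ i).symm.finiteDimensional
    exact Module.Finite.not_linearIndependent_of_infinite _
      (Finsupp.basisSingleOne (R := ℂ) (ι := ℕ)).linearIndependent
  have ap : ∀ η > 0, ∃ a, ‖x - Finsupp.linearCombination ℂ f a‖ < η := fun η h => by
    obtain ⟨_, ⟨a, rfl⟩, b⟩ := Metric.mem_closure_iff.1 hx1 η h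
    exact ⟨a, by rwa [dist_eq_norm] at b⟩
  have x1 := norm_pos_iff.2 hx0
  obtain ⟨a0, h0⟩ := ap (‖x‖ / 100) (by positivity)
  obtain ⟨j, hj⟩ : ∃ j, ‖x‖ / 4 < ‖a0 j‖ := by
    by_contra c
    push Not at c
    have d1 := sm (fun k => f k - e k) _ (by norm_num) a1 a0 _ c
    have d2 : Finsupp.linearCombination ℂ (fun k => f k - e k) a0 =
        Finsupp.linearCombination ℂ f a0 - Finsupp.linearCombination ℂ e a0 := by
      simp [Finsupp.linearCombination_apply, Finsupp.sum, smul_sub]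
    have d3 : ‖Finsupp.linearCombination ℂ e a0‖ ≤ _ := h2 0 a0 _ c
    rw [d2] at d1
    linarith [norm_sub_norm_le (Finsupp.linearCombination ℂ f a0) (Finsupp.linearCombination ℂ e a0),
      norm_sub_norm_le x (Finsupp.linearCombination ℂ f a0)]
  refine Metric.denseRange_iff.2 fun z ε hε => ?_
  obtain ⟨K, hK⟩ : ∃ K, K = 5 + 2 * (‖z‖ / (‖x‖ / 5) + 1) := ⟨_, rfl⟩
  have K0 : 0 < K := by rw [hK]; positivity
  obtain ⟨a, ha⟩ := ap (min (‖x‖ / 100) (ε / 3 / K)) (by positivity)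
  obtain ⟨ha1, ha2⟩ := lt_min_iff.1 ha
  have d1 : ‖x‖ / 5 ≤ ‖a j‖ := by
    have := b1 (a0 - a) j
    rw [map_sub, Finsupp.sub_apply] at this
    linarith [norm_sub_norm_le (a0 j) (a j), norm_sub_le_norm_sub_add_norm_sub
      (Finsupp.linearCombination ℂ f a0) x (Finsupp.linearCombination ℂ f a),
      norm_sub_rev (Finsupp.linearCombination ℂ f a0) x]
  have d2 : 0 < ‖a j‖ := lt_of_lt_of_le (by positivity) d1
  obtain ⟨i, hi⟩ := Metric.denseRange_iff.1 hx ((a j)⁻¹ • z) (min 1 (ε / 3 / ‖a j‖)) (by positivity)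
  obtain ⟨hi1, hi2⟩ := lt_min_iff.1 hi
  obtain ⟨r, r1, r2⟩ := (((tendsto_pow_atTop_nhds_zero_of_lt_one (r := (1 / 2 : ℝ)) (by norm_num)
    (by norm_num)).mul_const ‖Finsupp.linearCombination ℂ f a‖).eventually (gt_mem_nhds
      (show _ < ε / 3 by simpa using hε))).and (eventually_ge_atTop (a.support.sup id)) |>.exists
  obtain ⟨l, l1, l2, l3⟩ : ∃ l : ℕ, l.unpair.1 = j ∧ l.unpair.2.unpair.1 = i ∧ r ≤ l :=
    ⟨j.pair (i.pair r), by simp, by simp, (Nat.right_le_pair i r).trans (Nat.right_le_pair _ _)⟩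
  refine ⟨n l, ?_⟩
  have e1 := sm _ _ (by positivity) (a2 l) a _ (b1 a)
  rw [← b2 l (Nat.unpair_left_le l), (Finsupp.filter_eq_zero_iff _ _).2 fun k hk => by_contra fun c =>
    hk ((Finset.le_sup (f := id) (Finsupp.mem_support_iff.2 c)).trans (r2.trans l3)), l1, l2] at e1
  simp only [map_zero, sub_zero] at e1
  have e2 := b3 l _ (Submodule.sub_mem _ hx1 (Submodule.le_topologicalClosure _ ⟨a, rfl⟩))
  rw [l2, map_sub] at e2
  rw [dist_eq_norm] at hi1 hi2 ⊢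
  have e3 : ‖(T ^ i) x0‖ ≤ ‖z‖ / (‖x‖ / 5) + 1 := by
    have := norm_sub_norm_le ((T ^ i) x0) ((a j)⁻¹ • z)
    rw [norm_sub_rev, norm_smul, norm_inv, inv_mul_eq_div] at this
    linarith [div_le_div_of_nonneg_left (norm_nonneg z) (by positivity) d1]
  have e4 : ‖z - a j • (T ^ i) x0‖ < ε / 3 := by
    rw [lt_div_iff₀' d2, ← norm_smul, smul_sub, smul_inv_smul₀ (norm_pos_iff.1 d2)] at hi2
    exact hi2
  have e5 := pow_le_pow_of_le_one (show (0:ℝ) ≤ 1 / 2 by norm_num) (by norm_num) l3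
  have e6 := (lt_div_iff₀' K0).1 ha2
  have e7 := mul_le_mul_of_nonneg_right (show 5 + 2 * ‖(T ^ i) x0‖ ≤ K by linarith)
    (norm_nonneg (x - Finsupp.linearCombination ℂ f a))
  have e8 := mul_le_mul_of_nonneg_right e5 (norm_nonneg (Finsupp.linearCombination ℂ f a))
  linarith [norm_sub_le_norm_sub_add_norm_sub z (a j • (T ^ i) x0) ((T ^ n l) x),
    norm_sub_le_norm_sub_add_norm_sub (a j • (T ^ i) x0)
      ((T ^ n l) (Finsupp.linearCombination ℂ f a)) ((T ^ n l) x),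
    norm_sub_rev (a j • (T ^ i) x0) ((T ^ n l) (Finsupp.linearCombination ℂ f a)),
    norm_sub_rev ((T ^ n l) (Finsupp.linearCombination ℂ f a)) ((T ^ n l) x)]

end Pool.Agent.H.MP_b108d3_an
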